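import Mathlib
import Pool.Agent.H220.K.Stm

set_option autoImplicit false

open Set Filter Topology Metric
open scoped ContDiff ComplexConjugate

/-!
# MP_0015b7_an : `S_trunc`
-/

namespace Pool.Agent.H597.K

open Pool.Agent.H220.K

variable {P : ℕ → ℂ}

theorem D2_nonneg (j : ℕ) (y : ℂ × ℂ) : 0 ≤ D2 P j y := by
  unfold D2; positivity

theorem continuous_D2 (j : ℕ) : Continuous (D2 P j) := by
  unfold D2; fun_prop

/-- upper bound of the squared distance -/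
theorem D2_le (hP : ∀ j, ‖P j‖ ≤ 1) (j : ℕ) (y : ℂ × ℂ) : D2 P j y ≤ 2 * (‖y‖ + 1) ^ 2 := by
  have h1 : ‖y.1 - P j‖ ≤ ‖y‖ + 1 :=
    (norm_sub_le _ _).trans (add_le_add (norm_fst_le y) (hP j))
  have h2 : ‖y.2 - conj (P j)‖ ≤ ‖y‖ + 1 := by
    refine (norm_sub_le _ _).trans (add_le_add (norm_snd_le y) ?_)
    rw [RCLike.norm_conj]; exact hP j
  have h3 := pow_le_pow_left₀ (norm_nonneg _) h1 2
  have h4 := pow_le_pow_left₀ (norm_nonneg _) h2 2
  unfold D2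
  linarith

theorem abs_log_le {a b m : ℝ} (ha : 0 < a) (h1 : a ≤ m) (h2 : m ≤ b) :
    |Real.log m| ≤ |Real.log a| + |Real.log b| := by
  have h3 := Real.log_le_log ha h1
  have h4 := Real.log_le_log (ha.trans_le h1) h2
  rw [abs_le]
  have e1 := neg_abs_le (Real.log a)
  have e2 := abs_nonneg (Real.log b)
  have e3 := le_abs_self (Real.log b)
  have e4 := abs_nonneg (Real.log a)
  constructor <;> linarith

/-- bound of the terms -/
theorem term_bound {c : ℝ} {b : ℝ} (h : |c| ≤ b) (j : ℕ) :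
    ‖(1 / 2 : ℝ) ^ j * (1 / 2 * c)‖ ≤ b * (1 / 2 : ℝ) ^ j := by
  have hb : 0 ≤ b := (abs_nonneg c).trans h
  rw [norm_mul, norm_mul, norm_pow, Real.norm_eq_abs, Real.norm_eq_abs]
  have e : |(1 / 2 : ℝ)| = 1 / 2 := abs_of_pos (by norm_num)
  rw [e]
  have h2 : (0 : ℝ) ≤ (1 / 2) ^ j := by positivity
  have h3 : 1 / 2 * |c| ≤ b := by linarith [abs_nonneg c]
  calc (1 / 2 : ℝ) ^ j * (1 / 2 * |c|) ≤ (1 / 2 : ℝ) ^ j * b := mul_le_mul_of_nonneg_left h3 h2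
    _ = b * (1 / 2 : ℝ) ^ j := mul_comm _ _

theorem summable_bound (b : ℝ) : Summable fun j : ℕ => b * (1 / 2 : ℝ) ^ j :=
  (summable_geometric_two).mul_left b

/-- the uniform bound of the truncated logarithms on a ball -/
theorem abs_log_max_le (hP : ∀ j, ‖P j‖ ≤ 1) {δ R : ℝ} (hδ : 0 < δ) (j : ℕ) {y : ℂ × ℂ}
    (hy : ‖y‖ ≤ R) :
    |Real.log (max (D2 P j y) δ)| ≤ |Real.log δ| + |Real.log (2 * (R + 1) ^ 2 + δ)| := by
  refine abs_log_le hδ (le_max_right _ _) ?_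
  have h0 := norm_nonneg y
  have h1 : 2 * (‖y‖ + 1) ^ 2 ≤ 2 * (R + 1) ^ 2 := by
    have := pow_le_pow_left₀ (by linarith : 0 ≤ ‖y‖ + 1) (by linarith : ‖y‖ + 1 ≤ R + 1) 2
    linarith
  refine max_le ?_ ?_
  · have := D2_le hP j y
    linarith
  · have : 0 ≤ 2 * (R + 1) ^ 2 := by positivity
    linarith

theorem summable_gt (hP : ∀ j, ‖P j‖ ≤ 1) {δ : ℝ} (hδ : 0 < δ) (y : ℂ × ℂ) :
    Summable fun j : ℕ => (1 / 2 : ℝ) ^ j * (1 / 2 * Real.log (max (D2 P j y) δ)) :=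
  Summable.of_norm_bounded (summable_bound _)
    (fun j => term_bound (abs_log_max_le hP hδ j le_rfl) j)

theorem continuous_gt (hP : ∀ j, ‖P j‖ ≤ 1) {δ : ℝ} (hδ : 0 < δ) : Continuous (gt P δ) := by
  rw [continuous_iff_continuousAt]
  intro y
  have h : ContinuousOn (gt P δ) (closedBall (0 : ℂ × ℂ) (‖y‖ + 1)) := by
    unfold gt
    refine continuousOn_tsum (u := fun j : ℕ =>
      (|Real.log δ| + |Real.log (2 * ((‖y‖ + 1) + 1) ^ 2 + δ)|) * (1 / 2 : ℝ) ^ j) ?_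
      (summable_bound _) ?_
    · intro j
      refine Continuous.continuousOn ?_
      refine continuous_const.mul (continuous_const.mul ?_)
      refine Continuous.log ((continuous_D2 j).max continuous_const) ?_
      intro z
      exact (lt_of_lt_of_le hδ (le_max_right _ _)).ne'
    · intro j z hz
      rw [mem_closedBall_zero_iff] at hz
      exact term_bound (abs_log_max_le hP hδ j hz) j
  refine h.continuousAt (Filter.mem_of_superset (closedBall_mem_nhds y one_pos) ?_)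
  intro z hz
  rw [mem_closedBall, dist_eq_norm] at hz
  rw [mem_closedBall_zero_iff]
  have : z = y + (z - y) := by abel
  calc ‖z‖ = ‖y + (z - y)‖ := by rw [← this]
    _ ≤ ‖y‖ + ‖z - y‖ := norm_add_le _ _
    _ ≤ ‖y‖ + 1 := by linarith

theorem gt_mono (hP : ∀ j, ‖P j‖ ≤ 1) {δ δ' : ℝ} (hδ : 0 < δ) (h : δ ≤ δ') (y : ℂ × ℂ) :
    gt P δ y ≤ gt P δ' y := by
  unfold gt
  refine Summable.tsum_le_tsum ?_ (summable_gt hP hδ y) (summable_gt hP (hδ.trans_le h) y)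
  intro j
  have h1 : Real.log (max (D2 P j y) δ) ≤ Real.log (max (D2 P j y) δ') :=
    Real.log_le_log (lt_of_lt_of_le hδ (le_max_right _ _)) (max_le_max le_rfl h)
  have h2 : (0 : ℝ) ≤ (1 / 2) ^ j := by positivity
  exact mul_le_mul_of_nonneg_left (by linarith) h2

theorem isClosed_Pi0 : IsClosed Pi0 := by
  have h1 : IsClosed {y : ℂ × ℂ | y.2 = conj y.1} :=
    isClosed_eq continuous_snd (Complex.continuous_conj.comp continuous_fst)
  have h2 : IsClosed {y : ℂ × ℂ | ‖y.1‖ ≤ 1} :=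
    isClosed_le (continuous_norm.comp continuous_fst) continuous_const
  exact h1.inter h2

theorem mem_Pi0 (hP : ∀ j, ‖P j‖ ≤ 1) (j : ℕ) : ((P j, conj (P j)) : ℂ × ℂ) ∈ Pi0 :=
  ⟨rfl, hP j⟩

/-- off `Pi0` the squared distances are locally uniformly bounded from below -/
theorem exists_lower (hP : ∀ j, ‖P j‖ ≤ 1) {y : ℂ × ℂ} (hy : y ∉ Pi0) :
    ∃ ρ : ℝ, 0 < ρ ∧ ∀ y' ∈ ball y ρ, ∀ j, ρ ^ 2 ≤ D2 P j y' := by
  obtain ⟨ε, hε, hball⟩ := Metric.isOpen_iff.1 isClosed_Pi0.isOpen_compl y hy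
  refine ⟨ε / 2, by positivity, ?_⟩
  intro y' hy' j
  have h1 : ((P j, conj (P j)) : ℂ × ℂ) ∉ ball y ε := fun h => hball h (mem_Pi0 hP j)
  have h2 : ε / 2 ≤ ‖y' - ((P j, conj (P j)) : ℂ × ℂ)‖ := by
    by_contra hlt
    push Not at hlt
    refine h1 ?_
    rw [mem_ball, dist_comm]
    rw [mem_ball, dist_comm] at hy'
    have h3 := dist_triangle y y' ((P j, conj (P j)) : ℂ × ℂ)
    rw [dist_eq_norm y'] at h3
    linarith
  have h4 : ‖y' - ((P j, conj (P j)) : ℂ × ℂ)‖ = max ‖y'.1 - P j‖ ‖y'.2 - conj (P j)‖ := rfl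
  rw [h4] at h2
  unfold D2
  rcases le_max_iff.1 h2 with h | h
  · have := pow_le_pow_left₀ (by positivity : (0 : ℝ) ≤ ε / 2) h 2
    nlinarith [sq_nonneg ‖y'.2 - conj (P j)‖]
  · have := pow_le_pow_left₀ (by positivity : (0 : ℝ) ≤ ε / 2) h 2
    nlinarith [sq_nonneg ‖y'.1 - P j‖]

theorem gt_eq_g0 {δ : ℝ} {y : ℂ × ℂ} (h : ∀ j, δ ≤ D2 P j y) : gt P δ y = g0 P y := by
  unfold gt g0
  refine tsum_congr fun j => ?_
  rw [max_eq_left (h j)]

/-- the series of `g0` is summable off `Pi0` -/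
theorem summable_g0 (hP : ∀ j, ‖P j‖ ≤ 1) {y : ℂ × ℂ} (hy : y ∉ Pi0) :
    Summable fun j : ℕ => (1 / 2 : ℝ) ^ j * (1 / 2 * Real.log (D2 P j y)) := by
  obtain ⟨ρ, hρ, h⟩ := exists_lower hP hy
  have h1 := summable_gt hP (pow_pos hρ 2) y
  refine h1.congr ?_
  intro j
  rw [max_eq_left (h y (mem_ball_self hρ) j)]

theorem one_le_D2 (hP : ∀ j, ‖P j‖ ≤ 1) {y : ℂ × ℂ} (hy : 10 ≤ ‖y.1‖) (j : ℕ) :
    1 ≤ D2 P j y := by
  have h1 : 9 ≤ ‖y.1 - P j‖ := by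
    have := norm_sub_norm_le y.1 (P j)
    linarith [hP j]
  have h2 := pow_le_pow_left₀ (by norm_num : (0 : ℝ) ≤ 9) h1 2
  unfold D2
  nlinarith [sq_nonneg ‖y.2 - conj (P j)‖]

theorem gt_nonneg (hP : ∀ j, ‖P j‖ ≤ 1) (δ : ℝ) {y : ℂ × ℂ} (hy : 10 ≤ ‖y.1‖) :
    0 ≤ gt P δ y := by
  unfold gt
  refine tsum_nonneg fun j => ?_
  have h1 : 0 ≤ Real.log (max (D2 P j y) δ) :=
    Real.log_nonneg ((one_le_D2 hP hy j).trans (le_max_left _ _))
  positivity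

theorem rest_nonneg {x : E3} (hx : 10 ≤ ‖x.1‖) : 0 ≤ rest x := by
  have h1 := pow_le_pow_left₀ (by norm_num : (0 : ℝ) ≤ 10) hx 2
  have h2 : 0 ≤ Real.log (1 + ‖x.2.2‖ ^ 2) := by
    refine Real.log_nonneg ?_
    have := sq_nonneg ‖x.2.2‖
    linarith
  have h3 := sq_nonneg ‖x.2.1‖
  unfold rest
  linarith

theorem s_trunc : S_trunc := by
  intro P hP
  refine ⟨fun δ hδ => continuous_gt hP hδ, fun δ δ' hδ h y => gt_mono hP hδ h y, ?_, ?_⟩
  · intro y hy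
    obtain ⟨ρ, hρ, h⟩ := exists_lower hP hy
    refine ⟨ρ ^ 2, pow_pos hρ 2, ?_⟩
    filter_upwards [ball_mem_nhds y hρ] with y' hy'
    intro δ _ hδ
    exact gt_eq_g0 fun j => hδ.trans (h y' hy' j)
  · intro δ _ x hx
    unfold vt
    exact add_nonneg (gt_nonneg hP δ (y := (x.1, x.2.1)) hx) (rest_nonneg hx)

end Pool.Agent.H597.K
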